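import Pool.Agent.FTU.Stmts

/-!
# Squad FTU, row DRP: pointwise bound of the Dirac energy density
-/

set_option autoImplicit false

open MeasureTheory Complex ProbabilityTheory

namespace Pool.Agent.FTU.H62

open Pool.Agent.Helper49_Pauli
open Pool.Agent.MBX
open Pool.Agent.FTU

theorem nsqSmul (z : ℂ) (u : S2) : nsq (z • u) = ‖z‖ ^ 2 * nsq u := by
  simp only [nsq, Fin.sum_univ_two, Pi.smul_apply, smul_eq_mul, norm_mul]
  ring

theorem nsqSl (v : X3) (u : S2) : nsq (sl v u) = Helper49_Pauli.sq v * nsq u := by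
  rw [sl_apply, Fin.sum_univ_three]
  simp only [sg_zero, sg_one, sg_two, nsq, Fin.sum_univ_two, Helper49_Pauli.sq, Fin.sum_univ_three]
  simp only [← Complex.normSq_eq_norm_sq, Complex.normSq_apply]
  simp
  ring

theorem norm3 (a b c : ℂ) : ‖a + b + c‖ ^ 2 ≤ 3 * (‖a‖ ^ 2 + ‖b‖ ^ 2 + ‖c‖ ^ 2) := by
  have h : ‖a + b + c‖ ≤ ‖a‖ + ‖b‖ + ‖c‖ := norm_add₃_le
  have h0 : 0 ≤ ‖a + b + c‖ := norm_nonneg _
  have h1 : ‖a + b + c‖ ^ 2 ≤ (‖a‖ + ‖b‖ + ‖c‖) ^ 2 := by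
    exact pow_le_pow_left₀ h0 h 2
  nlinarith [sq_nonneg (‖a‖ - ‖b‖), sq_nonneg (‖b‖ - ‖c‖), sq_nonneg (‖a‖ - ‖c‖)]

theorem nsq3 (a b c : S2) : nsq (a + b + c) ≤ 3 * (nsq a + nsq b + nsq c) := by
  have h0 := norm3 (a 0) (b 0) (c 0)
  have h1 := norm3 (a 1) (b 1) (c 1)
  simp only [nsq, Fin.sum_univ_two, Pi.add_apply]
  linarith

theorem pd_sc {bp : X3 → ℝ} {CB : ℝ} (hb : Bump bp CB) {l : ℝ} (j : Fin 3)
    (x : X3) : pd j (sc bp l) x = l⁻¹ * pd j bp (l⁻¹ • x) := by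
  have hd : DifferentiableAt ℝ bp (l⁻¹ • x) :=
    (hb.smooth.differentiable (by simp)).differentiableAt
  have h1 : HasFDerivAt (fun x : X3 => l⁻¹ • x) (l⁻¹ • ContinuousLinearMap.id ℝ X3) x :=
    (hasFDerivAt_id x).const_smul l⁻¹
  have h2 : HasFDerivAt (sc bp l) ((fderiv ℝ bp (l⁻¹ • x)).comp
      (l⁻¹ • ContinuousLinearMap.id ℝ X3)) x := hd.hasFDerivAt.comp x h1
  unfold pd
  rw [h2.fderiv]
  simp

theorem sc_zero {bp : X3 → ℝ} {CB : ℝ} (hb : Bump bp CB) {l : ℝ} (hl : 1 ≤ l) {x : X3}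
    (j : Fin 3) (hj : l < |x j|) : sc bp l x = 0 := by
  unfold sc
  apply hb.zero
  refine ⟨j, ?_⟩
  have hl0 : 0 < l := by linarith
  rw [Pi.smul_apply, smul_eq_mul, abs_mul, abs_of_pos (inv_pos.2 hl0)]
  rw [inv_mul_eq_div, le_div_iff₀ hl0]
  linarith

theorem pd_sc_zero {bp : X3 → ℝ} {CB : ℝ} (hb : Bump bp CB) {l : ℝ} (hl : 1 ≤ l) {x : X3}
    (j : Fin 3) (hj : l < |x j|) (i : Fin 3) : pd i (sc bp l) x = 0 := by
  have hev : sc bp l =ᶠ[nhds x] fun _ => 0 := by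
    have hopen : IsOpen {z : X3 | l < |z j|} :=
      isOpen_lt continuous_const (continuous_abs.comp (continuous_apply j))
    filter_upwards [hopen.mem_nhds hj] with z hz
    exact sc_zero hb hl j hz
  unfold pd
  rw [hev.fderiv_eq]
  simp

theorem pol_xe {ι : Type} [Fintype ι] (S : Sys ι) (et : ℝ) (M : ℕ) (r : RR) (y : ι → ℝ)
    (x : X3) : S.pol et (xe ^ M * r) y x = (et : ℂ) ^ M * S.pol et r y x := by
  unfold Sys.pol ev xe
  rw [map_mul, map_pow, MvPolynomial.eval_X]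
  rfl

theorem cb_nonneg {bp : X3 → ℝ} {CB : ℝ} (hb : Bump bp CB) : 0 ≤ CB :=
  (abs_nonneg _).trans (hb.der 0 0)

theorem drp (hDtr : DtrStmt) : DrpStmt := by
  intro bp CB hb M eps u f r1 r2 hM heps hcj h1 h2 ι _ _ S et l y x het hl
  have hsm : ContDiff ℝ (⊤ : ℕ∞) (sc bp l) := by
    unfold sc
    exact hb.smooth.comp (contDiff_const_smul l⁻¹)
  rw [hDtr ι S et M eps u f (sc bp l) y x het.ne' hM heps hcj hsm, h1, h2]
  have hl0 : 0 < l := by linarith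
  have hCB := cb_nonneg hb
  set φ : S2 := ![S.pol et u y x, S.pol et f y x] with hφ
  have hnφ : nsq φ = ‖S.pol et u y x‖ ^ 2 + ‖S.pol et f y x‖ ^ 2 := by
    rw [hφ]
    simp [nsq, Fin.sum_univ_two]
  set v : X3 := fun c => ∑ i, y i * S.rm M i x c with hv
  set g : X3 := fun j => pd j (sc bp l) x with hg
  have hC : ∑ j, (-I * (pd j (sc bp l) x : ℂ)) • sg j φ = (-I) • sl g φ := by
    rw [sl_apply, Finset.smul_sum]
    refine Finset.sum_congr rfl fun j _ => ?_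
    rw [smul_smul]
  rw [hC, nsqSmul]
  have hph : ‖cexp (-(I * (S.Th et eps y (x 2) : ℂ))) * ((gs et x : ℝ) : ℂ)‖ ^ 2 = gs et x ^ 2 := by
    rw [norm_mul, Complex.norm_real, Real.norm_eq_abs, mul_pow, sq_abs]
    have : ‖cexp (-(I * (S.Th et eps y (x 2) : ℂ)))‖ = 1 := by
      rw [Complex.norm_exp]
      simp
    rw [this]
    ring
  rw [hph]
  have hA : nsq (((sc bp l x / et ^ 2 : ℝ) : ℂ) • (![S.pol et (xe ^ M * r1) y x,
      S.pol et (xe ^ M * r2) y x] : S2)) =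
      sc bp l x ^ 2 * (et ^ (2 * M - 4) * (‖S.pol et r1 y x‖ ^ 2 + ‖S.pol et r2 y x‖ ^ 2)) := by
    rw [nsqSmul, Complex.norm_real, Real.norm_eq_abs, sq_abs, pol_xe, pol_xe]
    simp only [nsq, Fin.sum_univ_two, Matrix.cons_val_zero, Matrix.cons_val_one, norm_mul,
      norm_pow, Complex.norm_real, Real.norm_eq_abs, abs_of_pos het]
    obtain ⟨m, rfl⟩ : ∃ m, M = m + 2 := ⟨M - 2, by omega⟩
    have e : 2 * (m + 2) - 4 = 2 * m := by omega
    rw [e, div_pow]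
    field_simp
    ring
  have hB : nsq (((sc bp l x : ℝ) : ℂ) • sl v φ) = sc bp l x ^ 2 * (Helper49_Pauli.sq v * nsq φ) := by
    rw [nsqSmul, Complex.norm_real, Real.norm_eq_abs, sq_abs, nsqSl]
  have hCC : nsq ((-I) • sl g φ) = Helper49_Pauli.sq g * nsq φ := by
    rw [nsqSmul, nsqSl, norm_neg, Complex.norm_I]
    ring
  have hch : sc bp l x ^ 2 ≤ cube l x := by
    unfold cube
    split_ifs with hc
    · have h0 : 0 ≤ sc bp l x := hb.nonneg _
      have h1 : sc bp l x ≤ 1 := hb.le_one _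
      nlinarith
    · push Not at hc
      obtain ⟨j, hj⟩ := hc
      rw [sc_zero hb hl j hj]
      simp
  have hgg : Helper49_Pauli.sq g ≤ cube l x * (3 * CB ^ 2 * (l⁻¹) ^ 2) := by
    unfold cube
    split_ifs with hc
    · have hj : ∀ j, g j ^ 2 ≤ CB ^ 2 * (l⁻¹) ^ 2 := by
        intro j
        rw [hg]
        simp only
        rw [pd_sc hb j x, mul_pow]
        have hd := hb.der (l⁻¹ • x) j
        have : pd j bp (l⁻¹ • x) ^ 2 ≤ CB ^ 2 := by
          rw [← sq_abs]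
          exact pow_le_pow_left₀ (abs_nonneg _) hd 2
        have h0 : 0 ≤ (l⁻¹) ^ 2 := by positivity
        nlinarith
      unfold Helper49_Pauli.sq
      rw [Fin.sum_univ_three]
      have h0 := hj 0
      have h1 := hj 1
      have h2 := hj 2
      linarith
    · push Not at hc
      obtain ⟨j, hj⟩ := hc
      have : ∀ i, g i = 0 := fun i => pd_sc_zero hb hl j hj i
      unfold Helper49_Pauli.sq
      simp [this]
  have hcube : 0 ≤ cube l x := le_trans (sq_nonneg _) hch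
  have hφ0 : 0 ≤ nsq φ := nsq_nonneg φ
  have hsv : 0 ≤ Helper49_Pauli.sq v := Finset.sum_nonneg fun _ _ => by positivity
  have hR : 0 ≤ et ^ (2 * M - 4) * (‖S.pol et r1 y x‖ ^ 2 + ‖S.pol et r2 y x‖ ^ 2) := by
    positivity
  have hmain := nsq3 (((sc bp l x / et ^ 2 : ℝ) : ℂ) • (![S.pol et (xe ^ M * r1) y x,
      S.pol et (xe ^ M * r2) y x] : S2)) (((sc bp l x : ℝ) : ℂ) • sl v φ) ((-I) • sl g φ)
  rw [hA, hB, hCC] at hmain
  have hg2 : 0 ≤ gs et x ^ 2 := sq_nonneg _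
  have hvs : Helper49_Pauli.sq v = ∑ c, (∑ i, y i * S.rm M i x c) ^ 2 := rfl
  rw [← hnφ, ← hvs]
  have hfin : nsq (((sc bp l x / et ^ 2 : ℝ) : ℂ) • (![S.pol et (xe ^ M * r1) y x,
      S.pol et (xe ^ M * r2) y x] : S2) + ((sc bp l x : ℝ) : ℂ) • sl v φ + (-I) • sl g φ) ≤
      3 * cube l x * (et ^ (2 * M - 4) * (‖S.pol et r1 y x‖ ^ 2 + ‖S.pol et r2 y x‖ ^ 2) +
        (Helper49_Pauli.sq v + 3 * CB ^ 2 * (l⁻¹) ^ 2) * nsq φ) := by
    refine hmain.trans ?_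
    have e1 := mul_le_mul_of_nonneg_right hch hR
    have e2 := mul_le_mul_of_nonneg_right hch (mul_nonneg hsv hφ0)
    have e3 := mul_le_mul_of_nonneg_right hgg hφ0
    nlinarith
  have := mul_le_mul_of_nonneg_left hfin hg2
  refine this.trans (le_of_eq ?_)
  ring

end Pool.Agent.FTU.H62
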